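import Pool.Agent.BEH.StmtsS
import Pool.Agent.Helper10_BEH.EXT
import Pool.Agent.Helper44_BEH.EGK

/-!
# Squad BEH, row CPT: the eigenvalues of large subdomains
-/

set_option autoImplicit false

namespace Pool.Agent.BEH.H12

open Set Filter Topology MeasureTheory
open scoped InnerProductSpace ENNReal
open Pool.Agent.BE01 Pool.Agent.BEL Pool.Agent.BEH

noncomputable section

variable {d : ℕ}

/-- Elements of the span of the gradients of test functions are gradients of test functions. -/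
theorem span_tst {Ω : Set (En d)} (s : Lp (En d) 2 (mu Ω))
    (hs : s ∈ Submodule.span ℝ
      {G : Lp (En d) 2 (mu Ω) | ∃ ψ, Tst Ω ψ ∧ G =ᵐ[mu Ω] gradient ψ}) :
    ∃ ψ, Tst Ω ψ ∧ s =ᵐ[mu Ω] gradient ψ := by
  refine Submodule.span_induction (p := fun (s : Lp (En d) 2 (mu Ω)) _ =>
    ∃ ψ, Tst Ω ψ ∧ s =ᵐ[mu Ω] gradient ψ)
    ?_ ?_ ?_ ?_ hs
  · intro G hG
    exact hG
  · refine ⟨fun _ => 0, ⟨contDiff_const, HasCompactSupport.zero, ?_⟩, ?_⟩
    · have : tsupport (fun _ : En d => (0 : ℝ)) = ∅ := by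
        rw [tsupport_eq_empty_iff]
        rfl
      rw [this]
      exact empty_subset _
    · filter_upwards [Lp.coeFn_zero (En d) 2 (mu Ω)] with x hx
      rw [hx, gradient_fun_const]
      rfl
  · rintro G G' _ _ ⟨ψ, hψ, hG⟩ ⟨φ, hφ, hG'⟩
    refine ⟨fun x => ψ x + φ x, ⟨hψ.1.add hφ.1, hψ.2.1.add hφ.2.1, ?_⟩, ?_⟩
    · exact (tsupport_add ψ φ).trans (union_subset hψ.2.2 hφ.2.2)
    · filter_upwards [Lp.coeFn_add G G', hG, hG'] with x h1 h2 h3
      rw [h1, Pi.add_apply, h2, h3]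
      unfold gradient
      rw [fderiv_fun_add (hψ.1.differentiable (by simp) x) (hφ.1.differentiable (by simp) x),
        map_add]
  · rintro c G _ ⟨ψ, hψ, hG⟩
    refine ⟨fun x => c * ψ x, ⟨contDiff_const.mul hψ.1, hψ.2.1.mul_left, ?_⟩, ?_⟩
    · refine (closure_mono ?_).trans hψ.2.2
      intro x hx h0
      apply hx
      show c * ψ x = 0
      rw [h0, mul_zero]
    · filter_upwards [Lp.coeFn_smul c G, hG] with x h1 h2
      rw [h1, Pi.smul_apply, h2]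
      unfold gradient
      rw [fderiv_const_mul (hψ.1.differentiable (by simp) x), map_smulₛₗ]
      rfl

/-- Density of the gradients of test functions. -/
theorem dens {Ω : Set (En d)} (G : VV Ω) (θ : ℝ) (hθ : 0 < θ) :
    ∃ (ψ : En d → ℝ) (Γ : VV Ω), Tst Ω ψ ∧ (Γ : Lp (En d) 2 (mu Ω)) =ᵐ[mu Ω] gradient ψ ∧
      ‖Γ - G‖ ≤ θ := by
  have hG : (G : Lp (En d) 2 (mu Ω)) ∈ closure ((Submodule.span ℝ
      {G : Lp (En d) 2 (mu Ω) | ∃ ψ, Tst Ω ψ ∧ G =ᵐ[mu Ω] gradient ψ} :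
      Submodule ℝ (Lp (En d) 2 (mu Ω))) : Set (Lp (En d) 2 (mu Ω))) := G.2
  obtain ⟨s, hs, hd⟩ := Metric.mem_closure_iff.1 hG θ hθ
  obtain ⟨ψ, hψ, hsψ⟩ := span_tst s hs
  refine ⟨ψ, ⟨s, Submodule.le_topologicalClosure _ hs⟩, hψ, hsψ, ?_⟩
  have h1 : ‖(⟨s, Submodule.le_topologicalClosure _ hs⟩ : VV Ω) - G‖ =
      ‖s - (G : Lp (En d) 2 (mu Ω))‖ := rfl
  rw [h1, ← dist_eq_norm, dist_comm]
  exact hd.le

/-- The choice of the accuracy. -/
theorem choice_t (w k η : ℝ) (hw : 0 ≤ w) (hk : 0 ≤ k) (hη : 0 < η) :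
    ∃ t : ℝ, 0 < t ∧ k * t ≤ 1 / 2 ∧ ∀ v : ℝ, 0 ≤ v → v ≤ w →
      (v + t) ^ 2 ≤ (v ^ 2 + η) * (1 - k * t) ^ 2 := by
  have hD : 0 < 2 * w + 1 + 2 * k * (w ^ 2 + η) + η := by positivity
  refine ⟨η / (2 * w + 1 + 2 * k * (w ^ 2 + η) + η), by positivity, ?_, ?_⟩
  · rw [← mul_div_assoc, div_le_iff₀ hD]
    have : 0 ≤ k * w ^ 2 := by positivity
    nlinarith
  · intro v hv hvw
    set t := η / (2 * w + 1 + 2 * k * (w ^ 2 + η) + η) with ht
    have ht0 : 0 < t := by positivity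
    have ht1 : t ≤ 1 := by
      rw [ht, div_le_one hD]
      have : 0 ≤ k * (w ^ 2 + η) := by positivity
      nlinarith
    have htD : t * (2 * w + 1 + 2 * k * (w ^ 2 + η) + η) = η := by
      rw [ht]
      field_simp
    have h1 : v ^ 2 ≤ w ^ 2 := pow_le_pow_left₀ hv hvw 2
    have h2 : t * v ≤ t * w := mul_le_mul_of_nonneg_left hvw ht0.le
    have h3 : t ^ 2 ≤ t := by nlinarith
    have h4 : t * k * (v ^ 2 + η) ≤ t * k * (w ^ 2 + η) :=
      mul_le_mul_of_nonneg_left (by linarith) (by positivity)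
    have h5 : 0 ≤ (v ^ 2 + η) * (k * t) ^ 2 := by positivity
    have h6 : 0 ≤ t * η := by positivity
    nlinarith

theorem iota_e {Ω : Set (En d)} {ι : VV Ω →L[ℝ] Lp ℝ 2 (mu Ω)}
    {b : HilbertBasis ℕ ℝ (Lp ℝ 2 (mu Ω))} {e : HilbertBasis ℕ ℝ (VV Ω)} {om : ℕ → ℝ}
    (hS : Spec Ω ι b e om) (k : ℕ) : ι (om k • e k) = b k := by
  rw [map_smul]
  apply H44.ext_b b
  intro j
  rw [inner_smul_right, hS.rel, H44.ek, H44.ee]
  by_cases hjk : j = k
  · subst hjk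
    rw [if_pos rfl, mul_one, mul_inv_cancel₀ (hS.pos j).ne']
  · rw [if_neg hjk, mul_zero, mul_zero]

/-- Norm of a combination of orthonormal vectors. -/
theorem norm_comb {H : Type} [NormedAddCommGroup H] [InnerProductSpace ℝ H] (v : ℕ → H)
    (hv : Orthonormal ℝ v) (m : ℕ) (c : Fin (m + 1) → ℝ) :
    ‖∑ i, c i • v i‖ ^ 2 = ∑ i, c i ^ 2 := by
  have hv' : Orthonormal ℝ (fun i : Fin (m + 1) => v i) := hv.comp _ Fin.val_injective
  rw [← real_inner_self_eq_norm_sq, hv'.inner_sum]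
  refine Finset.sum_congr rfl fun i _ => ?_
  simp only [conj_trivial]
  ring

/-- Norm of a combination of small vectors. -/
theorem norm_small {H : Type} [NormedAddCommGroup H] [NormedSpace ℝ H] (m N : ℕ) (hm : m ≤ N)
    (v : ℕ → H) (θ s : ℝ) (hθ : 0 ≤ θ) (hv : ∀ i, i ≤ N → ‖v i‖ ≤ θ) (c : Fin (m + 1) → ℝ)
    (hs : 0 ≤ s) (hc : ∀ i, |c i| ≤ s) : ‖∑ i, c i • v i‖ ≤ ((N : ℝ) + 1) * θ * s := by
  have h1 : ‖∑ i, c i • v i‖ ≤ ∑ _i : Fin (m + 1), θ * s := by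
    refine norm_sum_le_of_le _ fun i _ => ?_
    rw [norm_smul, Real.norm_eq_abs, mul_comm]
    exact mul_le_mul (hv i (by omega)) (hc i) (abs_nonneg _) hθ
  rw [Finset.sum_const, Finset.card_univ, Fintype.card_fin, nsmul_eq_mul] at h1
  have h2 : (((m + 1 : ℕ)) : ℝ) ≤ (N : ℝ) + 1 := by
    push_cast
    have : (m : ℝ) ≤ N := by exact_mod_cast hm
    linarith
  have h3 := mul_le_mul_of_nonneg_right h2 (mul_nonneg hθ hs)
  linarith

/-- Row CPT. -/
theorem cpt (mmt : MmtStmt) : CptStmt := by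
  intro d Ω ι b e om hO N η hη
  have hpos := hO.spec.pos
  obtain ⟨t, ht0, htk, ht⟩ := choice_t (om N) ‖ι‖ η (hpos N).le ι.opNorm_nonneg hη
  have hN1 : (0 : ℝ) < (N : ℝ) + 1 := by positivity
  have hθ : 0 < t / ((N : ℝ) + 1) := by positivity
  have hθt : ((N : ℝ) + 1) * (t / ((N : ℝ) + 1)) = t := by field_simp
  choose ψ Γ hψ hΓ hd using fun i : ℕ => dens (om i • e i) (t / ((N : ℝ) + 1)) hθ
  refine ⟨⋃ i ∈ Finset.range (N + 1), tsupport (ψ i),
    (Finset.range (N + 1)).isCompact_biUnion fun i _ => (hψ i).2.1, ?_, ?_⟩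
  · exact iUnion₂_subset fun i _ => (hψ i).2.2
  intro Ω' ι' b' e' om' hO' hK hs m hm
  have hms : MeasurableSet Ω' := hO'.dom.1.measurableSet
  have hψ' : ∀ i, i ≤ N → Tst Ω' (ψ i) := by
    intro i hi
    refine ⟨(hψ i).1, (hψ i).2.1, ?_⟩
    refine subset_trans ?_ hK
    exact subset_iUnion₂_of_subset i (Finset.mem_range.2 (by omega)) (subset_refl _)
  obtain ⟨Γ', hΓ'⟩ : ∃ Γ' : ℕ → VV Ω', ∀ i, i ≤ N →
      (Γ' i : Lp (En d) 2 (mu Ω')) =ᵐ[mu Ω'] gradient (ψ i) := by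
    refine ⟨fun i => if h : i ≤ N then (H44.grad_mem (ψ i) (hψ' i h)).choose else 0, ?_⟩
    intro i hi
    simp only [dif_pos hi]
    exact (H44.grad_mem (ψ i) (hψ' i hi)).choose_spec
  have hF : ∀ i, i ≤ N → H10.exV hms hs (Γ' i) = Γ i := by
    intro i hi
    apply Subtype.ext
    rw [H10.exV_coe]
    apply Lp.ext
    exact (H10.ex0_grad hms hs (hψ' i hi) (hΓ' i hi)).trans (hΓ i).symm
  obtain ⟨E, F, hE, hF', hEF⟩ := H10.ext d Ω Ω' ι ι' hO.dom hO'.dom hs hO.emb hO'.emb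
  have hFF : ∀ G : VV Ω', F G = H10.exV hms hs G := by
    intro G
    apply Subtype.ext
    apply Lp.ext
    rw [H10.exV_coe]
    exact (hF' G).trans (H10.ex0_ae (En d) hms hs _).symm
  have hFG : ∀ i, i ≤ N → F (Γ' i) = Γ i := fun i hi => (hFF _).trans (hF i hi)
  -- the trial space
  let T : (Fin (m + 1) → ℝ) →ₗ[ℝ] VV Ω' := Fintype.linearCombination ℝ (fun i => Γ' i)
  have hT : ∀ x, T x = ∑ i, x i • Γ' i := fun x => rfl
  have hFT : ∀ x, F (T x) = ∑ i, x i • Γ i := by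
    intro x
    rw [hT, map_sum]
    refine Finset.sum_congr rfl fun i _ => ?_
    rw [map_smul, hFG i (by omega)]
  have hn1 : ∀ x, ‖T x‖ = ‖∑ i, x i • Γ i‖ := by
    intro x
    rw [← hFT, F.norm_map]
  have hn2 : ∀ x, ‖ι' (T x)‖ = ‖ι (∑ i, x i • Γ i)‖ := by
    intro x
    rw [← hFT, hEF, E.norm_map]
  have hdec : ∀ x : Fin (m + 1) → ℝ, ∑ i, x i • Γ i =
      ∑ i : Fin (m + 1), x i • (om i • e i) + ∑ i : Fin (m + 1), x i • (Γ i - om i • e i) := by
    intro x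
    rw [← Finset.sum_add_distrib]
    refine Finset.sum_congr rfl fun i _ => ?_
    rw [← smul_add]
    congr 1
    abel
  have hmain : ∀ x : Fin (m + 1) → ℝ, ∀ s : ℝ, 0 ≤ s → s ^ 2 = ∑ i, x i ^ 2 →
      ‖T x‖ ≤ (om m + t) * s ∧ (1 - ‖ι‖ * t) * s ≤ ‖ι' (T x)‖ := by
    intro x s hs0 hs2
    have hxs : ∀ i, |x i| ≤ s := by
      intro i
      apply abs_le_of_sq_le_sq _ hs0
      rw [hs2]
      exact Finset.single_le_sum (f := fun i => x i ^ 2) (fun j _ => sq_nonneg _)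
        (Finset.mem_univ i)
    have hsm := norm_small m N hm (fun i => Γ i - om i • e i) (t / ((N : ℝ) + 1)) s hθ.le
      (fun i _ => hd i) x hs0 hxs
    rw [hθt] at hsm
    have h1 : ‖∑ i : Fin (m + 1), x i • (om i • e i)‖ ≤ om m * s := by
      apply le_of_sq_le_sq _ (mul_nonneg (hpos m).le hs0)
      have h2 : ∑ i : Fin (m + 1), x i • (om i • e i) =
          ∑ i : Fin (m + 1), (x i * om i) • e i := by
        refine Finset.sum_congr rfl fun i _ => ?_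
        rw [smul_smul]
      rw [h2, norm_comb (fun i => e i) e.orthonormal m (fun i => x i * om i), mul_pow, hs2,
        Finset.mul_sum]
      refine Finset.sum_le_sum fun i _ => ?_
      have h3 : om i ≤ om m := hO.spec.mono (by omega)
      have h4 : om i ^ 2 ≤ om m ^ 2 := pow_le_pow_left₀ (hpos i).le h3 2
      rw [mul_pow, mul_comm]
      exact mul_le_mul_of_nonneg_right h4 (sq_nonneg _)
    have h5 : ‖ι (∑ i : Fin (m + 1), x i • (om i • e i))‖ = s := by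
      have h2 : ι (∑ i : Fin (m + 1), x i • (om i • e i)) = ∑ i : Fin (m + 1), x i • b i := by
        rw [map_sum]
        refine Finset.sum_congr rfl fun i _ => ?_
        rw [map_smul, iota_e hO.spec]
      have h3 : ‖ι (∑ i : Fin (m + 1), x i • (om i • e i))‖ ^ 2 = s ^ 2 := by
        rw [h2, norm_comb (fun i => b i) b.orthonormal m x, hs2]
      exact (pow_left_inj₀ (norm_nonneg _) hs0 (by norm_num)).1 h3
    constructor
    · rw [hn1, hdec]
      refine (norm_add_le _ _).trans ?_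
      linarith
    · rw [hn2, hdec, map_add]
      have h6 : ‖ι (∑ i : Fin (m + 1), x i • (Γ i - om i • e i))‖ ≤ ‖ι‖ * (t * s) :=
        (ι.le_opNorm _).trans (mul_le_mul_of_nonneg_left hsm ι.opNorm_nonneg)
      have h7 := norm_sub_norm_le (ι (∑ i : Fin (m + 1), x i • (om i • e i)))
        (-ι (∑ i : Fin (m + 1), x i • (Γ i - om i • e i)))
      rw [norm_neg, sub_neg_eq_add, h5] at h7
      linarith
  have hk1 : 0 < 1 - ‖ι‖ * t := by linarith
  refine mmt d Ω' ι' b' e' om' hO'.spec m T (om m ^ 2 + η) ?_ ?_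
  · intro x hx h0
    have hsum : 0 ≤ ∑ i, x i ^ 2 := Finset.sum_nonneg fun i _ => sq_nonneg _
    have h := (hmain x (Real.sqrt (∑ i, x i ^ 2)) (Real.sqrt_nonneg _) (Real.sq_sqrt hsum)).2
    rw [h0, norm_zero] at h
    have hs0 : Real.sqrt (∑ i, x i ^ 2) ≤ 0 := by
      by_contra hc
      push Not at hc
      have := mul_pos hk1 hc
      linarith
    have hs1 : ∑ i, x i ^ 2 = 0 := by
      have h1 : Real.sqrt (∑ i, x i ^ 2) = 0 := le_antisymm hs0 (Real.sqrt_nonneg _)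
      exact (Real.sqrt_eq_zero hsum).1 h1
    apply hx
    funext i
    have := (Finset.sum_eq_zero_iff_of_nonneg (fun i _ => sq_nonneg (x i))).1 hs1 i
      (Finset.mem_univ i)
    exact pow_eq_zero_iff (by norm_num) |>.1 this
  · intro x
    have hsum : 0 ≤ ∑ i, x i ^ 2 := Finset.sum_nonneg fun i _ => sq_nonneg _
    obtain ⟨h1, h2⟩ := hmain x (Real.sqrt (∑ i, x i ^ 2)) (Real.sqrt_nonneg _)
      (Real.sq_sqrt hsum)
    set s := Real.sqrt (∑ i, x i ^ 2) with hs'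
    have hs0 : 0 ≤ s := Real.sqrt_nonneg _
    have h3 : ‖T x‖ ^ 2 ≤ ((om m + t) * s) ^ 2 := pow_le_pow_left₀ (norm_nonneg _) h1 2
    have h4 : ((1 - ‖ι‖ * t) * s) ^ 2 ≤ ‖ι' (T x)‖ ^ 2 :=
      pow_le_pow_left₀ (mul_nonneg hk1.le hs0) h2 2
    have h5 := ht (om m) (hpos m).le (hO.spec.mono hm)
    have h6 : 0 ≤ om m ^ 2 + η := by positivity
    calc ‖T x‖ ^ 2 ≤ ((om m + t) * s) ^ 2 := h3
      _ = (om m + t) ^ 2 * s ^ 2 := by ring
      _ ≤ (om m ^ 2 + η) * (1 - ‖ι‖ * t) ^ 2 * s ^ 2 :=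
        mul_le_mul_of_nonneg_right h5 (sq_nonneg _)
      _ = (om m ^ 2 + η) * ((1 - ‖ι‖ * t) * s) ^ 2 := by ring
      _ ≤ (om m ^ 2 + η) * ‖ι' (T x)‖ ^ 2 := mul_le_mul_of_nonneg_left h4 h6

end

end Pool.Agent.BEH.H12
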